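import Pool.Agent.H.MP_7c844e_an.Main

namespace Pool.Agent.Results.MP_7c844e_an.Exists

open Filter Topology OnePoint Pool.Agent.Lib.helper22 Weak Conv Pool.Agent.H.MP_7c844e_an

theorem result : ∃ (X : Type) (_ : NormedAddCommGroup X) (_ : NormedSpace ℝ X)
    (_ : CompleteSpace X), (∀ x y : X, ‖x‖ = 1 → ‖y‖ = 1 → ‖x + y‖ = 2 → x = y) ∧
    ∃ x : X, ‖x‖ = 1 ∧ ∀ (f : X →L[ℝ] ℝ) (α ε : ℝ), ‖f‖ = 1 → 0 < α → 0 < ε →
      ∃ y, ‖y‖ ≤ 1 ∧ 1 - α < f y ∧ 2 - ε < ‖x - y‖ := by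
  obtain ⟨X, i1, i2, i3, e, he⟩ := supnorm A (1 + ‖T‖) 1 one_pos
    (fun k z => (A_le k z).trans (by
      linarith [co z k, T.le_opNorm z, mul_le_of_le_one_left (norm_nonneg (T z)) (δ_bd k).2.1]))
    (fun z r h => nle z fun k => (A_ge k z).trans ((h k).trans_eq (one_mul r).symm))
  have lo : ∀ z k, ‖A k z‖ ≤ ‖e z‖ := fun z => (he z _).1 le_rfl
  refine ⟨X, i1, i2, i3, fun x y hx hy h => ?_, e 1, le_antisymm ((he 1 1).2 fun k =>
    (A_le k 1).trans (by simp [T_one])) (by simpa using (A_ge ∞ 1).trans (lo 1 ∞)),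
    fun f α η hf hα hη => ?_⟩
  · obtain ⟨x, rfl⟩ := e.surjective x
    obtain ⟨y, rfl⟩ := e.surjective y
    obtain ⟨k, hk⟩ := att (x + y)
    have a1 := (he _ _).2 hk
    have a2 := norm_add_le (A k x) (A k y)
    have a3 := lo x k
    have a4 := lo y k
    rw [map_add, h, map_add] at a1
    have a5 := eq_of_norm_eq_of_norm_add_eq (x := A k x) (y := A k y) (by linarith) (by linarith)
    rw [sub_eq_zero.1 (inj k (x - y) (by rw [map_sub, a5, sub_self]))]
  · obtain ⟨y, y1, y2⟩ : ∃ y, ‖y‖ < 1 ∧ 1 - α < f y := by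
      obtain ⟨y, y1, y2⟩ := f.exists_lt_apply_of_lt_opNorm (r := 1 - α) (by linarith)
      rcases lt_abs.1 y2 with c | c
      · exact ⟨y, y1, c⟩
      · exact ⟨-y, by simpa using y1, by simpa using c⟩
    obtain ⟨z, rfl⟩ := e.surjective y
    have m1 := min_le_left (η / 2) 1
    have m2 := min_le_right (η / 2) 1
    have m3 := lt_min (half_pos hη) one_pos
    have hb : |min (η / 2) 1 - 1| < 1 := abs_lt.2 ⟨by linarith, by linarith⟩
    obtain ⟨n, h1, h2⟩ := ((near z _ _ y1 hb (lo z)).and ((wn e.toContinuousLinearMap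
      (fun n => min (η / 2) 1 - 1 - z n) 2 (fun n => (abs_sub _ _).trans
        (by linarith [A_ge n z, lo z n])) (e z) f).eventually (lt_mem_nhds y2))).exists
    refine ⟨e (z + _), (he _ 1).2 h1, h2.trans_eq (congrArg f (map_add e _ _).symm), ?_⟩
    rw [← map_sub]
    refine lt_of_lt_of_le ?_ ((le_abs_self _).trans ((A_ge n _).trans (lo _ n)))
    simp only [ContinuousMap.sub_apply, ContinuousMap.add_apply, ContinuousMap.smul_apply, u_self,
      ContinuousMap.one_apply, smul_eq_mul]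
    linarith

end Pool.Agent.Results.MP_7c844e_an.Exists
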